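import Pool.Agent.Helper89.Vol.Goals

/-! V36-NUM: numerics. -/

set_option autoImplicit false

namespace Pool.Agent.Helper76.Vol.PkNUM

open Set Pool.Agent.Helper89.Vol

theorem f_cont : Continuous f := by
  unfold f
  fun_prop

theorem low : (1.172453 : ℝ) < f (379 / 1250) := by
  unfold f
  have h1 : (0.81121498 : ℝ) ≤ √(3 / 4 - (379 / 1250) ^ 2) := by
    apply Real.le_sqrt_of_sq_le
    norm_num
  have h2 : (1.1914189 : ℝ) ≤ √(4 - (1 + 2 * (379 / 1250)) ^ 2) := by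
    apply Real.le_sqrt_of_sq_le
    norm_num
  norm_num at h1 h2 ⊢
  linarith

theorem upp {N : ℝ} (h0 : 0 ≤ N) (h1 : N ≤ 1 / 2) : f N < 1.172454 := by
  have hX : 0 ≤ 3 / 4 - N ^ 2 := by nlinarith
  have hY : 0 ≤ 4 - (1 + 2 * N) ^ 2 := by nlinarith
  have e1 : √(3 / 4 - N ^ 2) ≤ (3 / 4 - N ^ 2 + 0.811215 ^ 2) / (2 * 0.811215) := by
    rw [le_div_iff₀ (by norm_num)]
    nlinarith [sq_nonneg (√(3 / 4 - N ^ 2) - 0.811215), Real.sq_sqrt hX]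
  have e2 : √(4 - (1 + 2 * N) ^ 2) ≤ (4 - (1 + 2 * N) ^ 2 + 1.191419 ^ 2) / (2 * 1.191419) := by
    rw [le_div_iff₀ (by norm_num)]
    nlinarith [sq_nonneg (√(4 - (1 + 2 * N) ^ 2) - 1.191419), Real.sq_sqrt hY]
  have e3 : f N ≤ (3 / 4 - N ^ 2 + 0.811215 ^ 2) / (2 * 0.811215) +
      N * ((4 - (1 + 2 * N) ^ 2 + 1.191419 ^ 2) / (2 * 1.191419)) :=
    add_le_add e1 (mul_le_mul_of_nonneg_left e2 h0)
  refine e3.trans_lt ?_
  have e4 : (N - 0.3032) ^ 2 * N ≥ 0 := by positivity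
  have e5 : (N - 0.3032) ^ 2 ≥ 0 := by positivity
  norm_num at e4 e5 ⊢
  nlinarith

theorem thm : G_NUM := by
  refine ⟨?_, low, fun N hN => upp hN.1 hN.2⟩
  obtain ⟨N, hN, hmax⟩ := (isCompact_Icc (a := (0 : ℝ)) (b := 1 / 2)).exists_isMaxOn
    ⟨0, by norm_num, by norm_num⟩ f_cont.continuousOn
  exact ⟨N, hN, fun M hM => hmax hM⟩

end Pool.Agent.Helper76.Vol.PkNUM
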